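import Pool.Agent.H37.CNT.Stmts

set_option autoImplicit false

namespace Pool.CND

open Finset

theorem pun_thm (h1 : S_PUL) (h2 : S_UPA) : S_PUN := by
  intro p k G _ _ _ c hp hk hc
  have hG0 : Nat.card G ≠ 0 := Nat.card_pos.ne'
  -- `|G| c` is an integer for all conductors
  have hall : ∀ c' ∈ Cond k G, ∃ z : ℤ, ((Nat.card G : ℕ) : ℚ) * c' = z := by
    obtain ⟨d, m, hm, hdm⟩ := Nat.exists_eq_pow_mul_and_not_dvd hG0 p hp.ne_one
    have hEA : EA p (⊥ : Subgroup G) := by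
      refine ⟨fun a ha => ?_, fun a ha b hb => ?_⟩
      · rw [Subgroup.mem_bot] at ha
        rw [ha, one_pow]
      · rw [Subgroup.mem_bot] at ha hb
        rw [ha, hb]
    have hcard : Nat.card G = p ^ d * Nat.card (⊥ : Subgroup G) * m := by
      rw [Subgroup.card_bot, mul_one]; exact hdm
    intro c' hc'
    have h := (h2 p k G ⊥ d m hp hk hEA hm hcard c' hc').1
    rw [hdm]
    exact h
  set S : Set ℕ := {N : ℕ | 1 ≤ N ∧ {c : ℚ | c ∈ Cond k G ∧ ¬ ∃ z : ℤ, (N : ℚ) * c = z}.Finite}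
    with hS
  have hne : S.Nonempty := by
    refine ⟨Nat.card G, Nat.card_pos, ?_⟩
    have he : {c : ℚ | c ∈ Cond k G ∧ ¬ ∃ z : ℤ, ((Nat.card G : ℕ) : ℚ) * c = z} = ∅ := by
      rw [Set.eq_empty_iff_forall_notMem]
      rintro c' ⟨h3, h4⟩
      exact h4 (hall c' h3)
    rw [he]
    exact Set.finite_empty
  have hN : NG k G ∈ S := Nat.sInf_mem hne
  obtain ⟨hN1, hfin⟩ := hN
  by_contra hnd
  have hc0 : c ≠ 0 := by
    rintro rfl
    apply hnd
    rw [Rat.den_zero]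
    exact one_dvd _
  have hNc : ¬ ∃ z : ℤ, (NG k G : ℚ) * c = z := by
    rintro ⟨z, hz⟩
    apply hnd
    have h3 : c = (z : ℚ) / ((NG k G : ℤ) : ℚ) := by
      have : ((NG k G : ℕ) : ℚ) ≠ 0 := by
        exact_mod_cast (by omega : NG k G ≠ 0)
      push_cast
      field_simp
      linarith [hz]
    have h4 := Rat.den_dvd z (NG k G : ℤ)
    rw [Rat.divInt_eq_div, ← h3] at h4
    exact_mod_cast h4
  obtain ⟨w, hw⟩ := hall c hc
  have hmem : ∀ j : ℕ, (((1 + j * (p * Nat.card G) : ℕ) : ℚ) * c) ∈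
      {c : ℚ | c ∈ Cond k G ∧ ¬ ∃ z : ℤ, (NG k G : ℚ) * c = z} := by
    intro j
    refine ⟨?_, ?_⟩
    · refine h1 p k G (1 + j * (p * Nat.card G)) c hp hk (by omega) ?_ ?_ hc
      · intro hd
        have h5 : p ∣ j * (p * Nat.card G) := Dvd.dvd.mul_left (Dvd.intro _ rfl) _
        have h6 : p ∣ 1 := (Nat.dvd_add_iff_left h5).2 hd
        exact hp.one_lt.ne' (Nat.dvd_one.1 h6)
      · have h7 : 1 + j * (p * Nat.card G) = 1 + (j * p) * Nat.card G := by ring
        rw [h7]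
        simp
    · rintro ⟨z, hz⟩
      apply hNc
      refine ⟨z - (NG k G : ℤ) * (j * p : ℤ) * w, ?_⟩
      push_cast at hz ⊢
      rw [← hw, ← hz]
      ring
  have hinj : Function.Injective (fun j : ℕ => ((1 + j * (p * Nat.card G) : ℕ) : ℚ) * c) := by
    intro i j hij
    have h8 : ((1 + i * (p * Nat.card G) : ℕ) : ℚ) = ((1 + j * (p * Nat.card G) : ℕ) : ℚ) :=
      mul_right_cancel₀ hc0 hij
    have h9 : 1 + i * (p * Nat.card G) = 1 + j * (p * Nat.card G) := by exact_mod_cast h8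
    have h10 : i * (p * Nat.card G) = j * (p * Nat.card G) := by omega
    exact Nat.eq_of_mul_eq_mul_right (Nat.mul_pos hp.pos (Nat.pos_of_ne_zero hG0)) h10
  exact (Set.infinite_of_injective_forall_mem hinj hmem) hfin

end Pool.CND
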